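import Mathlib

/-! The critical point of a nondecreasing continuous function. -/

open Filter

namespace Pool.Agent.Stirring.Mono

theorem exists_critical {m : ℝ → ℝ} (hc : ContinuousOn m (Set.Ici 0))
    (hm : MonotoneOn m (Set.Ici 0)) (h0 : ∀ t, 0 ≤ t → 0 ≤ m t)
    (h1 : ∃ t₁ : ℝ, 0 < t₁ ∧ ∀ t, 0 ≤ t → t ≤ t₁ → m t = 0) (h2 : Tendsto m atTop (nhds 1)) :
    ∃ b : ℝ, 0 < b ∧ (∀ t, 0 ≤ t → t ≤ b → m t = 0) ∧ ∀ t, b < t → 0 < m t := by
  obtain ⟨t₁, ht₁, hz⟩ := h1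
  set A : Set ℝ := {t | 0 ≤ t ∧ m t = 0} with hA
  have hmem : t₁ ∈ A := ⟨ht₁.le, hz t₁ ht₁.le le_rfl⟩
  obtain ⟨T, hT⟩ := (h2.eventually (lt_mem_nhds (show (0 : ℝ) < 1 by norm_num))).exists_forall_of_atTop
  have hbdd : BddAbove A := ⟨T, fun t ht => by
    by_contra h
    push Not at h
    have := hT t h.le
    rw [ht.2] at this
    exact lt_irrefl _ this⟩
  have hcl : IsClosed A := by
    have h3 : A = Set.Ici 0 ∩ m ⁻¹' {0} := by
      ext t
      simp [hA]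
    rw [h3]
    exact hc.preimage_isClosed_of_isClosed isClosed_Ici isClosed_singleton
  have hb : sSup A ∈ A := hcl.csSup_mem ⟨t₁, hmem⟩ hbdd
  have hpos : 0 < sSup A := lt_of_lt_of_le ht₁ (le_csSup hbdd hmem)
  refine ⟨sSup A, hpos, fun t ht htb => ?_, fun t ht => ?_⟩
  · refine le_antisymm ?_ (h0 t ht)
    rw [← hb.2]
    exact hm ht hb.1 htb
  · refine lt_of_le_of_ne (h0 t (hpos.le.trans ht.le)) fun h => ?_
    exact absurd (le_csSup hbdd (show t ∈ A from ⟨hpos.le.trans ht.le, h.symm⟩)) (not_le.mpr ht)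

end Pool.Agent.Stirring.Mono
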